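import Pool.Agent.helper55.ZI.Spec2

set_option autoImplicit false

namespace Pool.Agent.helper82.ZI

open Pool.Agent.ZI

universe u

theorem G2X_mem {R : Type u} [Ring R] (S : ℕ → Subring R) {T : Type u} [AddCommGroup T]
    [Module R T] (s₀ : T) (m : ℕ) (v : T) : v ∈ VV S s₀ m ↔ ∃ a ∈ S m, a • s₀ = v := by
  unfold VV
  rw [Submodule.mem_span_singleton]
  constructor
  · rintro ⟨a, ha⟩
    exact ⟨(a : R), a.2, ha⟩
  · rintro ⟨a, ha, hv⟩
    exact ⟨⟨a, ha⟩, hv⟩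

theorem G2X_mono {R : Type u} [Ring R] (S : ℕ → Subring R) (hS : Monotone S) {T : Type u}
    [AddCommGroup T] [Module R T] (s₀ : T) {m n : ℕ} (h : m ≤ n) {v : T}
    (hv : v ∈ VV S s₀ m) : v ∈ VV S s₀ n := by
  rw [G2X_mem] at hv ⊢
  obtain ⟨a, ha, hv⟩ := hv
  exact ⟨a, hS h ha, hv⟩

theorem G2X_base {R : Type u} [Ring R] (S : ℕ → Subring R) {T : Type u}
    [AddCommGroup T] [Module R T] (s₀ : T) (m : ℕ) : s₀ ∈ VV S s₀ m := by
  rw [G2X_mem]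
  exact ⟨1, (S m).one_mem, one_smul R s₀⟩

theorem G2X_smul {R : Type u} [Ring R] (S : ℕ → Subring R) {T : Type u}
    [AddCommGroup T] [Module R T] (s₀ : T) (m : ℕ) {a : R} (ha : a ∈ S m) {v : T}
    (hv : v ∈ VV S s₀ m) : a • v ∈ VV S s₀ m := by
  rw [G2X_mem] at hv ⊢
  obtain ⟨c, hc, hv⟩ := hv
  exact ⟨a * c, (S m).mul_mem ha hc, by rw [mul_smul, hv]⟩

/-- the inclusion -/
def G2X_inc {R : Type u} [Ring R] (S : ℕ → Subring R) (hS : Monotone S) {T : Type u}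
    [AddCommGroup T] [Module R T] (s₀ : T) {m n : ℕ} (h : m ≤ n) :
    VV S s₀ m →ₛₗ[rinc hS h] VV S s₀ n where
  toFun v := ⟨(v : T), G2X_mono S hS s₀ h v.2⟩
  map_add' _ _ := rfl
  map_smul' _ _ := rfl

/-- the function `a s₀ ↦ a t` -/
theorem G2X_gf {R : Type u} [Ring R] (S : ℕ → Subring R) {T : Type u}
    [AddCommGroup T] [Module R T] (s₀ t : T) (k : ℕ)
    (ht : ∀ a ∈ S k, a • s₀ = 0 → a • t = 0) : ∃ gf : T → T, ∀ a ∈ S k, gf (a • s₀) = a • t := by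
  classical
  refine ⟨fun x => if h : ∃ a ∈ S k, a • s₀ = x then h.choose • t else 0, ?_⟩
  intro a ha
  have hex : ∃ a' ∈ S k, a' • s₀ = a • s₀ := ⟨a, ha, rfl⟩
  show (if h : ∃ a' ∈ S k, a' • s₀ = a • s₀ then h.choose • t else 0) = a • t
  rw [dif_pos hex]
  have h1 := hex.choose_spec
  have h2 : (hex.choose - a) • s₀ = 0 := by
    rw [sub_smul, h1.2, sub_self]
  have h3 := ht _ ((S k).sub_mem h1.1 ha) h2
  rw [sub_smul, sub_eq_zero] at h3
  exact h3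

theorem G2X_gf_add {R : Type u} [Ring R] (S : ℕ → Subring R) {T : Type u}
    [AddCommGroup T] [Module R T] (s₀ t : T) (k : ℕ) (gf : T → T)
    (hgf : ∀ a ∈ S k, gf (a • s₀) = a • t) (x y : T) (hx : x ∈ VV S s₀ k) (hy : y ∈ VV S s₀ k) :
    gf (x + y) = gf x + gf y := by
  rw [G2X_mem] at hx hy
  obtain ⟨a, ha, rfl⟩ := hx
  obtain ⟨c, hc, rfl⟩ := hy
  rw [← add_smul, hgf _ ((S k).add_mem ha hc), hgf a ha, hgf c hc, add_smul]

theorem G2X_gf_smul {R : Type u} [Ring R] (S : ℕ → Subring R) {T : Type u}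
    [AddCommGroup T] [Module R T] (s₀ t : T) (k : ℕ) (gf : T → T)
    (hgf : ∀ a ∈ S k, gf (a • s₀) = a • t) (c : R) (hc : c ∈ S k) (x : T)
    (hx : x ∈ VV S s₀ k) : gf (c • x) = c • gf x := by
  rw [G2X_mem] at hx
  obtain ⟨a, ha, rfl⟩ := hx
  rw [← mul_smul, hgf _ ((S k).mul_mem hc ha), hgf a ha, mul_smul]

theorem G2X_gf_mem {R : Type u} [Ring R] (S : ℕ → Subring R) (hS : Monotone S) {T : Type u}
    [AddCommGroup T] [Module R T] (s₀ t : T) (k n : ℕ) (hkn : k ≤ n) (gf : T → T)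
    (hgf : ∀ a ∈ S k, gf (a • s₀) = a • t) (ht : t ∈ VV S s₀ n) (x : T)
    (hx : x ∈ VV S s₀ k) : gf x ∈ VV S s₀ n := by
  rw [G2X_mem] at hx
  obtain ⟨a, ha, rfl⟩ := hx
  rw [hgf a ha]
  exact G2X_smul S s₀ n (hS hkn ha) ht

/-- Restriction of an endomorphism to a smaller stage. -/
theorem G2X_res {R : Type u} [Ring R] (S : ℕ → Subring R) (hS : Monotone S) {T : Type u}
    [AddCommGroup T] [Module R T] (s₀ : T) {m n : ℕ} (h : m ≤ n)
    (F : VV S s₀ n →ₗ[S n] VV S s₀ n)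
    (hF : ((F ⟨s₀, G2X_base S s₀ n⟩ : VV S s₀ n) : T) ∈ VV S s₀ m) :
    ∃ ρ : VV S s₀ m →ₗ[S m] VV S s₀ m, ∀ v : VV S s₀ m,
      ((ρ v : VV S s₀ m) : T) = ((F ⟨(v : T), G2X_mono S hS s₀ h v.2⟩ : VV S s₀ n) : T) := by
  have hpres : ∀ v : VV S s₀ m,
      ((F ⟨(v : T), G2X_mono S hS s₀ h v.2⟩ : VV S s₀ n) : T) ∈ VV S s₀ m := by
    rintro ⟨v, hv⟩
    obtain ⟨a, ha, hav⟩ := (G2X_mem S s₀ m v).1 hv
    have h1 : (⟨v, G2X_mono S hS s₀ h hv⟩ : VV S s₀ n) =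
        (⟨a, hS h ha⟩ : S n) • (⟨s₀, G2X_base S s₀ n⟩ : VV S s₀ n) := Subtype.ext hav.symm
    show ((F ⟨v, G2X_mono S hS s₀ h hv⟩ : VV S s₀ n) : T) ∈ VV S s₀ m
    rw [h1, map_smul]
    exact G2X_smul S s₀ m ha hF
  refine ⟨{ toFun := fun v => ⟨_, hpres v⟩, map_add' := ?_, map_smul' := ?_ }, fun v => rfl⟩
  · intro v w
    apply Subtype.ext
    show ((F ⟨((v + w : VV S s₀ m) : T), _⟩ : VV S s₀ n) : T) = _
    have h1 : (⟨((v + w : VV S s₀ m) : T), G2X_mono S hS s₀ h (v + w).2⟩ : VV S s₀ n) =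
        ⟨(v : T), G2X_mono S hS s₀ h v.2⟩ + ⟨(w : T), G2X_mono S hS s₀ h w.2⟩ := rfl
    rw [h1, map_add]
    rfl
  · intro a v
    apply Subtype.ext
    show ((F ⟨((a • v : VV S s₀ m) : T), _⟩ : VV S s₀ n) : T) = _
    have h1 : (⟨((a • v : VV S s₀ m) : T), G2X_mono S hS s₀ h (a • v).2⟩ : VV S s₀ n) =
        (⟨(a : R), hS h a.2⟩ : S n) • ⟨(v : T), G2X_mono S hS s₀ h v.2⟩ := rfl
    rw [h1, map_smul]
    rfl

theorem G2X_step {R : Type u} [Ring R] (S : ℕ → Subring R) (hS : Monotone S) {T : Type u}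
    [AddCommGroup T] [Module R T] (s₀ : T) (hP : Path S s₀) (m b m' : ℕ) (h : m < m')
    (ι : VV S s₀ m →ₛₗ[rinc hS h.le] VV S s₀ m')
    (g : Fin b → (VV S s₀ m →ₛₗ[rinc hS h.le] VV S s₀ m'))
    (hι : ∀ v, ((ι v : VV S s₀ m') : T) = (v : T)) (hG : G2 ι g) :
    ∃ (n : ℕ) (h : m < n) (ι : VV S s₀ m →ₛₗ[rinc hS h.le] VV S s₀ n)
      (g : Fin (b + 1) → (VV S s₀ m →ₛₗ[rinc hS h.le] VV S s₀ n)),
      (∀ v, ((ι v : VV S s₀ n) : T) = (v : T)) ∧ G2 ι g := by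
  obtain ⟨t, ht, ht0, a₀, ha₀, ha₀s, ha₀t⟩ := hP.2 m'
  obtain ⟨gf, hgf⟩ := G2X_gf S s₀ t m' ht0
  have hlt : m < m' + 1 := h.trans (Nat.lt_succ_self _)
  have hle : m' ≤ m' + 1 := Nat.le_succ _
  -- the two kinds of maps
  let G1 : Fin b → (VV S s₀ m →ₛₗ[rinc hS hlt.le] VV S s₀ (m' + 1)) := fun i =>
    { toFun := fun v => ⟨((g i v : VV S s₀ m') : T), G2X_mono S hS s₀ hle (g i v).2⟩
      map_add' := by
        intro v w
        apply Subtype.ext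
        show ((g i (v + w) : VV S s₀ m') : T) = ((g i v : VV S s₀ m') : T) + ((g i w : VV S s₀ m') : T)
        rw [map_add]
        rfl
      map_smul' := by
        intro a v
        apply Subtype.ext
        show ((g i (a • v) : VV S s₀ m') : T) = (a : R) • ((g i v : VV S s₀ m') : T)
        rw [LinearMap.map_smulₛₗ]
        rfl }
  let Gl : VV S s₀ m →ₛₗ[rinc hS hlt.le] VV S s₀ (m' + 1) :=
    { toFun := fun v => ⟨gf (v : T),
        G2X_gf_mem S hS s₀ t m' (m' + 1) hle gf hgf ht _ (G2X_mono S hS s₀ h.le v.2)⟩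
      map_add' := by
        intro v w
        apply Subtype.ext
        exact G2X_gf_add S s₀ t m' gf hgf _ _ (G2X_mono S hS s₀ h.le v.2)
          (G2X_mono S hS s₀ h.le w.2)
      map_smul' := by
        intro a v
        apply Subtype.ext
        exact G2X_gf_smul S s₀ t m' gf hgf (a : R) (hS h.le a.2) _ (G2X_mono S hS s₀ h.le v.2) }
  refine ⟨m' + 1, hlt, G2X_inc S hS s₀ hlt.le,
    Fin.snoc (α := fun _ => VV S s₀ m →ₛₗ[rinc hS hlt.le] VV S s₀ (m' + 1)) G1 Gl,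
    fun v => rfl, ?_⟩
  intro κ hκ hex
  obtain ⟨hh, hhv⟩ := hex
  choose κ' hκ' using hκ
  -- elementwise form
  have hκT : ∀ i (v : VV S s₀ m),
      ((κ' i ⟨(v : T), G2X_mono S hS s₀ hlt.le v.2⟩ : VV S s₀ (m' + 1)) : T) = ((κ i v : VV S s₀ m) : T) := by
    intro i v
    have := hκ' i v
    exact congrArg Subtype.val this
  have hres : ∀ i, ∃ ρ : VV S s₀ m' →ₗ[S m'] VV S s₀ m', ∀ v : VV S s₀ m',
      ((ρ v : VV S s₀ m') : T) =
        ((κ' i ⟨(v : T), G2X_mono S hS s₀ hle v.2⟩ : VV S s₀ (m' + 1)) : T) := by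
    intro i
    apply G2X_res S hS s₀ hle (κ' i)
    have h1 := hκT i ⟨s₀, G2X_base S s₀ m⟩
    have h2 : ((κ' i ⟨s₀, G2X_base S s₀ (m' + 1)⟩ : VV S s₀ (m' + 1)) : T) =
        ((κ i ⟨s₀, G2X_base S s₀ m⟩ : VV S s₀ m) : T) := h1
    rw [h2]
    exact G2X_mono S hS s₀ h.le (κ i ⟨s₀, G2X_base S s₀ m⟩).2
  choose ρ hρ using hres
  have hρκ : ∀ i (v : VV S s₀ m), ((ρ i ⟨(v : T), G2X_mono S hS s₀ h.le v.2⟩ : VV S s₀ m') : T) =
      ((κ i v : VV S s₀ m) : T) := by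
    intro i v
    rw [hρ]
    exact hκT i v
  -- the sum
  have hsum : ∀ v : VV S s₀ m,
      ((∑ i : Fin b, g i (κ (Fin.castSucc i) v) : VV S s₀ m') : T) + gf ((κ (Fin.last b) v : VV S s₀ m) : T) =
        ((hh ⟨(v : T), G2X_mono S hS s₀ hlt.le v.2⟩ : VV S s₀ (m' + 1)) : T) := by
    intro v
    have h1 := congrArg (Subtype.val) (hhv v)
    rw [Fin.sum_univ_castSucc] at h1
    have h2 : ((hh ⟨(v : T), G2X_mono S hS s₀ hlt.le v.2⟩ : VV S s₀ (m' + 1)) : T) =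
      ((hh (G2X_inc S hS s₀ hlt.le v) : VV S s₀ (m' + 1)) : T) := rfl
    rw [h2, ← h1]
    simp only [Fin.snoc_castSucc, Fin.snoc_last]
    rw [Submodule.coe_add]
    rw [Submodule.coe_sum, Submodule.coe_sum]
    rfl
  -- the map ε
  let e : VV S s₀ m' → T := fun w =>
    ((hh ⟨(w : T), G2X_mono S hS s₀ hle w.2⟩ : VV S s₀ (m' + 1)) : T) -
      gf ((ρ (Fin.last b) w : VV S s₀ m') : T)
  have hesmul : ∀ (a : S m') (w : VV S s₀ m'), e (a • w) = (a : R) • e w := by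
    intro a w
    show ((hh ⟨((a • w : VV S s₀ m') : T), _⟩ : VV S s₀ (m' + 1)) : T) -
      gf ((ρ (Fin.last b) (a • w) : VV S s₀ m') : T) = (a : R) • (_ - _)
    have h1 : (⟨((a • w : VV S s₀ m') : T), G2X_mono S hS s₀ hle (a • w).2⟩ : VV S s₀ (m' + 1)) =
        (⟨(a : R), hS hle a.2⟩ : S (m' + 1)) • ⟨(w : T), G2X_mono S hS s₀ hle w.2⟩ := rfl
    have h2 : gf ((ρ (Fin.last b) (a • w) : VV S s₀ m') : T) =
        (a : R) • gf ((ρ (Fin.last b) w : VV S s₀ m') : T) := by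
      rw [map_smul]
      exact G2X_gf_smul S s₀ t m' gf hgf (a : R) a.2 _ (ρ (Fin.last b) w).2
    rw [h1, map_smul, h2, smul_sub]
    rfl
  have headd : ∀ (v w : VV S s₀ m'), e (v + w) = e v + e w := by
    intro v w
    show ((hh ⟨((v + w : VV S s₀ m') : T), _⟩ : VV S s₀ (m' + 1)) : T) -
      gf ((ρ (Fin.last b) (v + w) : VV S s₀ m') : T) = (_ - _) + (_ - _)
    have h1 : (⟨((v + w : VV S s₀ m') : T), G2X_mono S hS s₀ hle (v + w).2⟩ : VV S s₀ (m' + 1)) =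
        ⟨(v : T), G2X_mono S hS s₀ hle v.2⟩ + ⟨(w : T), G2X_mono S hS s₀ hle w.2⟩ := rfl
    have h2 : gf ((ρ (Fin.last b) (v + w) : VV S s₀ m') : T) =
        gf ((ρ (Fin.last b) v : VV S s₀ m') : T) + gf ((ρ (Fin.last b) w : VV S s₀ m') : T) := by
      rw [map_add]
      exact G2X_gf_add S s₀ t m' gf hgf _ _ (ρ (Fin.last b) v).2 (ρ (Fin.last b) w).2
    rw [h1, map_add, h2, Submodule.coe_add]
    abel
  have heι : ∀ v : VV S s₀ m, e ⟨(v : T), G2X_mono S hS s₀ h.le v.2⟩ =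
      ((∑ i : Fin b, g i (κ (Fin.castSucc i) v) : VV S s₀ m') : T) := by
    intro v
    show ((hh ⟨(v : T), _⟩ : VV S s₀ (m' + 1)) : T) -
      gf ((ρ (Fin.last b) ⟨(v : T), G2X_mono S hS s₀ h.le v.2⟩ : VV S s₀ m') : T) = _
    rw [hρκ, ← hsum v]
    abel
  have hebase : e ⟨s₀, G2X_base S s₀ m'⟩ =
      ((∑ i : Fin b, g i (κ (Fin.castSucc i) ⟨s₀, G2X_base S s₀ m⟩) : VV S s₀ m') : T) :=
    heι ⟨s₀, G2X_base S s₀ m⟩
  have hform : ∀ w : VV S s₀ m', ∃ a : S m', w = a • (⟨s₀, G2X_base S s₀ m'⟩ : VV S s₀ m') := by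
    rintro ⟨w, hw⟩
    obtain ⟨a, ha, haw⟩ := (G2X_mem S s₀ m' w).1 hw
    exact ⟨⟨a, ha⟩, Subtype.ext haw.symm⟩
  have hemem : ∀ w : VV S s₀ m', e w ∈ VV S s₀ m' := by
    intro w
    obtain ⟨a, rfl⟩ := hform w
    rw [hesmul, hebase]
    exact G2X_smul S s₀ m' a.2 (Subtype.mem _)
  let ε : VV S s₀ m' →ₗ[S m'] VV S s₀ m' :=
    { toFun := fun w => ⟨e w, hemem w⟩
      map_add' := fun v w => Subtype.ext (headd v w)
      map_smul' := fun a w => Subtype.ext (hesmul a w) }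
  have hι' : ∀ v : VV S s₀ m, ι v = ⟨(v : T), G2X_mono S hS s₀ h.le v.2⟩ := fun v =>
    Subtype.ext (hι v)
  have hzero := hG (fun i => κ (Fin.castSucc i)) (by
    intro i
    refine ⟨ρ (Fin.castSucc i), fun v => ?_⟩
    apply Subtype.ext
    rw [hι', hρκ, hι]) ⟨ε, by
    intro v
    apply Subtype.ext
    rw [hι' v]
    exact (heι v).symm⟩
  -- the remaining one
  have hgz : ∀ w : VV S s₀ m', e w = 0 := by
    intro w
    obtain ⟨a, rfl⟩ := hform w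
    rw [hesmul, hebase]
    have h1 : (∑ i : Fin b, g i (κ (Fin.castSucc i) ⟨s₀, G2X_base S s₀ m⟩) : VV S s₀ m') = 0 := by
      apply Finset.sum_eq_zero
      intro i _
      have h2 : κ (Fin.castSucc i) = 0 := hzero i
      rw [h2, LinearMap.zero_apply, map_zero]
    rw [h1]
    show (a : R) • (0 : T) = 0
    exact smul_zero _
  have hlast : κ (Fin.last b) = 0 := by
    by_contra hne
    obtain ⟨v, hv⟩ : ∃ v, κ (Fin.last b) v ≠ 0 := by
      by_contra hcon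
      apply hne
      ext v
      have : κ (Fin.last b) v = 0 := by
        by_contra h'
        exact hcon ⟨v, h'⟩
      rw [this]
      rfl
    have hρne : ρ (Fin.last b) ≠ 0 := by
      intro h0
      have h1 := hρκ (Fin.last b) v
      rw [h0] at h1
      apply hv
      apply Subtype.ext
      rw [← h1]
      rfl
    have hκne : κ' (Fin.last b) ≠ 0 := by
      intro h0
      have h1 := hκT (Fin.last b) v
      rw [h0] at h1
      apply hv
      apply Subtype.ext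
      rw [← h1]
      rfl
    haveI := hP.1 m'
    haveI := hP.1 (m' + 1)
    have hsur := LinearMap.surjective_of_ne_zero hρne
    have hinj := LinearMap.injective_of_ne_zero hκne
    obtain ⟨w, hw⟩ := hsur ⟨s₀, G2X_base S s₀ m'⟩
    have h1 : ((κ' (Fin.last b) ⟨(w : T), G2X_mono S hS s₀ hle w.2⟩ : VV S s₀ (m' + 1)) : T) = s₀ := by
      rw [← hρ, hw]
    have h2 : (⟨a₀, ha₀⟩ : S (m' + 1)) • (⟨(w : T), G2X_mono S hS s₀ hle w.2⟩ : VV S s₀ (m' + 1)) = 0 := by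
      apply hinj
      rw [map_smul, map_zero]
      apply Subtype.ext
      show a₀ • ((κ' (Fin.last b) ⟨(w : T), G2X_mono S hS s₀ hle w.2⟩ : VV S s₀ (m' + 1)) : T) = 0
      rw [h1, ha₀s]
    have h3 : t = ((hh ⟨(w : T), G2X_mono S hS s₀ hle w.2⟩ : VV S s₀ (m' + 1)) : T) := by
      have h4 := hgz w
      have h5 : ((hh ⟨(w : T), G2X_mono S hS s₀ hle w.2⟩ : VV S s₀ (m' + 1)) : T) -
        gf ((ρ (Fin.last b) w : VV S s₀ m') : T) = 0 := h4
      rw [sub_eq_zero] at h5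
      rw [h5, hw]
      have h6 := hgf 1 (S m').one_mem
      rw [one_smul, one_smul] at h6
      exact h6.symm
    apply ha₀t
    rw [h3]
    have h7 : a₀ • ((hh ⟨(w : T), G2X_mono S hS s₀ hle w.2⟩ : VV S s₀ (m' + 1)) : T) =
        ((hh ((⟨a₀, ha₀⟩ : S (m' + 1)) • (⟨(w : T), G2X_mono S hS s₀ hle w.2⟩ : VV S s₀ (m' + 1))) :
          VV S s₀ (m' + 1)) : T) := by
      rw [map_smul]
      rfl
    rw [h7, h2, map_zero]
    rfl
  intro i
  refine Fin.lastCases ?_ (fun j => ?_) i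
  · exact hlast
  · exact hzero j

theorem G2X : G2X_stmt.{u} := by
  intro R _ S hS T _ _ s₀ hP m b
  induction b with
  | zero =>
    refine ⟨m + 1, Nat.lt_succ_self m, G2X_inc S hS s₀ (Nat.lt_succ_self m).le,
      fun i => i.elim0, fun v => rfl, ?_⟩
    intro κ _ _ i
    exact i.elim0
  | succ b ih =>
    obtain ⟨m', h, ι, g, hι, hG⟩ := ih
    exact G2X_step S hS s₀ hP m b m' h ι g hι hG

end Pool.Agent.helper82.ZI
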